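import Pool.Agent.W973.IP.FDefs

/-! # Polynomial time for the formula of the Fritz John points -/

set_option autoImplicit false

namespace Pool.Agent.NPC.W597IP

open Pool.Agent.W973.IP Pool.Agent.NPC.ER Pool.Agent.NPC.H612

section

variable {α : Type} [TEnc α]

theorem poly_nm (ty : ℕ) {i j : α → ℕ} (hi : Poly i) (hj : Poly j) :
    Poly (fun a => nm ty (i a) (j a)) :=
  Poly.add (Poly.mul (Poly.const 16) (poly_natPair hi hj)) (Poly.const ty)

theorem poly_vnm (ty : ℕ) {i j : α → ℕ} (hi : Poly i) (hj : Poly j) :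
    Poly (fun a => Tm.var (nm ty (i a) (j a))) :=
  poly_tvar (poly_nm ty hi hj)

theorem poly_chX (h2 : S_PQ) (h1 : S_PU) {n : α → ℕ} {wn xn : α → ℕ → ℕ} (hn : UPoly n)
    (hw : Poly (fun q : α × ℕ => wn q.1 q.2)) (hx : Poly (fun q : α × ℕ => xn q.1 q.2)) :
    Poly (fun a => chX (n a) (wn a) (xn a)) := by
  unfold chX
  have hb : UPoly (fun a => b0 (n a)) := (h1 α n hn).2.1
  refine poly_conj (Poly.cons (poly_feq (poly_tvar ?_) (h2 α n wn hn hw).1)
    (Poly.map (F := fun a t => Fm.eq (Tm.var (xn a (t + 1)))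
      (Tm.mul (Tm.var (xn a t)) (Tm.var (xn a t)))) hb.range ?_))
  · exact hx.comp (Poly.pair Poly.id (Poly.const 0))
  · have h3 : Poly (fun q : α × ℕ => Tm.var (xn q.1 q.2)) := poly_tvar hx
    have h4 : Poly (fun q : α × ℕ => Tm.var (xn q.1 (q.2 + 1))) :=
      poly_tvar (hx.comp (Poly.pair (Poly.fst Poly.id) (Poly.succ (Poly.snd Poly.id))))
    exact poly_feq h4 (poly_tmul h3 h3)

theorem poly_chD (h1 : S_PU) {n : α → ℕ} {xn dn : α → ℕ → ℕ} (hn : UPoly n)
    (hx : Poly (fun q : α × ℕ => xn q.1 q.2)) (hd : Poly (fun q : α × ℕ => dn q.1 q.2)) :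
    Poly (fun a => chD (n a) (xn a) (dn a)) := by
  unfold chD
  have hb : UPoly (fun a => b0 (n a)) := (h1 α n hn).2.1
  refine poly_conj (Poly.cons (poly_feq (poly_tvar ?_) (Poly.const _))
    (Poly.map (F := fun a t => Fm.eq (Tm.var (dn a (t + 1)))
      (Tm.mul twoT (Tm.mul (Tm.var (xn a t)) (Tm.var (dn a t))))) hb.range ?_))
  · exact hd.comp (Poly.pair Poly.id (Poly.const 0))
  · have h3 : Poly (fun q : α × ℕ => Tm.var (xn q.1 q.2)) := poly_tvar hx
    have h5 : Poly (fun q : α × ℕ => Tm.var (dn q.1 q.2)) := poly_tvar hd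
    have h4 : Poly (fun q : α × ℕ => Tm.var (dn q.1 (q.2 + 1))) :=
      poly_tvar (hd.comp (Poly.pair (Poly.fst Poly.id) (Poly.succ (Poly.snd Poly.id))))
    exact poly_feq h4 (poly_tmul (Poly.const _) (poly_tmul h3 h5))

theorem poly_chY (h1 : S_PU) {n : α → ℕ} (hn : UPoly n) : Poly (fun a => chY (n a)) := by
  unfold chY
  have hb : UPoly (fun a => bb (n a) * fa (n a)) :=
    UPoly.mul (h1 α n hn).2.2.2 (h1 α n hn).2.2.1
  refine poly_conj (Poly.cons (Poly.const _)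
    (Poly.map (F := fun _ t => Fm.and (Fm.eq (Tm.mul (Tm.var (nm 8 (t + 1) 0))
      (Tm.var (nm 8 (t + 1) 0))) (Tm.var (nm 8 t 0)))
      (Fm.lt Tm.zero (Tm.var (nm 8 (t + 1) 0)))) hb.range ?_))
  have h3 : Poly (fun q : α × ℕ => Tm.var (nm 8 q.2 0)) :=
    poly_vnm 8 (Poly.snd Poly.id) (Poly.const 0)
  have h4 : Poly (fun q : α × ℕ => Tm.var (nm 8 (q.2 + 1) 0)) :=
    poly_vnm 8 (Poly.succ (Poly.snd Poly.id)) (Poly.const 0)
  exact poly_fand (poly_feq (poly_tmul h4 h4) h3) (poly_flt (Poly.const _) h4)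

end

theorem pbT (h1 : S_PU) (h2 : S_PQ) (h4 : S_PG) : S_PB := by
  intro α _ E S r hE hS hr
  have hn : UPoly (fun a => nn (S a)) := UPoly.length (poly_varsOf hS)
  have hb : UPoly (fun a => b0 (nn (S a))) := (h1 α _ hn).2.1
  have hr1 : UPoly (fun a => r a + 1) := UPoly.add hr (UPoly.const 1)
  -- the terms, at an index `i`
  have hE' : Poly (fun q : α × ℕ => E q.1) := hE.comp (Poly.fst Poly.id)
  have hS' : Poly (fun q : α × ℕ => S q.1) := hS.comp (Poly.fst Poly.id)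
  have hn' : UPoly (fun q : α × ℕ => nn (S q.1)) :=
    UPoly.comp (n := fun a => nn (S a)) hn (Poly.fst Poly.id)
  have hb' : UPoly (fun q : α × ℕ => b0 (nn (S q.1))) :=
    UPoly.comp (n := fun a => b0 (nn (S a))) hb (Poly.fst Poly.id)
  have hE2 : Poly (fun q : (α × ℕ) × ℕ => E q.1.1) := hE'.comp (Poly.fst Poly.id)
  have hS2 : Poly (fun q : (α × ℕ) × ℕ => S q.1.1) := hS'.comp (Poly.fst Poly.id)
  have hn2 : UPoly (fun q : (α × ℕ) × ℕ => nn (S q.1.1)) :=
    UPoly.comp (n := fun q : α × ℕ => nn (S q.1)) hn' (Poly.fst Poly.id)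
  have hb2 : UPoly (fun q : (α × ℕ) × ℕ => b0 (nn (S q.1.1))) :=
    UPoly.comp (n := fun q : α × ℕ => b0 (nn (S q.1))) hb' (Poly.fst Poly.id)
  have hr2 : UPoly (fun q : α × ℕ => r q.1 + 1) :=
    UPoly.comp (n := fun a => r a + 1) hr1 (Poly.fst Poly.id)
  have hw : ∀ ty : ℕ, Poly (fun q : (α × ℕ) × ℕ => nm ty q.1.2 q.2) := fun ty =>
    poly_nm ty (Poly.snd (Poly.fst Poly.id)) (Poly.snd Poly.id)
  have hw2 : ∀ ty : ℕ, Poly (fun q : ((α × ℕ) × ℕ) × ℕ => nm ty q.1.1.2 q.2) := fun ty =>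
    poly_nm ty (Poly.snd (Poly.fst (Poly.fst Poly.id))) (Poly.snd Poly.id)
  have hw3 : ∀ ty : ℕ, Poly (fun q : ((α × ℕ) × ℕ) × ℕ => nm ty q.1.2 q.2) := fun ty =>
    poly_nm ty (Poly.snd (Poly.fst Poly.id)) (Poly.snd Poly.id)
  have e1 : Poly (fun a => chY (nn (S a))) := poly_chY h1 hn
  have e2 : Poly (fun a => conj ((List.range (r a + 1)).map fun i =>
      chX (nn (S a)) (nm 4 i) (nm 6 i))) :=
    poly_conj (Poly.map (F := fun a i => chX (nn (S a)) (nm 4 i) (nm 6 i)) hr1.range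
      (poly_chX h2 h1 (n := fun q : α × ℕ => nn (S q.1)) (wn := fun q => nm 4 q.2)
        (xn := fun q => nm 6 q.2) hn' (hw 4) (hw 6)))
  have e3 : Poly (fun a => conj ((List.range (r a + 1)).map fun i =>
      chD (nn (S a)) (nm 6 i) (nm 7 i))) :=
    poly_conj (Poly.map (F := fun a i => chD (nn (S a)) (nm 6 i) (nm 7 i)) hr1.range
      (poly_chD h1 (n := fun q : α × ℕ => nn (S q.1)) (xn := fun q => nm 6 q.2)
        (dn := fun q => nm 7 q.2) hn' (hw 6) (hw 7)))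
  have v5 : Poly (fun q : α × ℕ => Tm.var (nm 5 q.2 0)) :=
    poly_vnm 5 (Poly.snd Poly.id) (Poly.const 0)
  have e4 : Poly (fun a => conj ((List.range (r a + 1)).map fun i =>
      Fm.lt Tm.zero (Tm.var (nm 5 i 0)))) :=
    poly_conj (Poly.map (F := fun _ i => Fm.lt Tm.zero (Tm.var (nm 5 i 0))) hr1.range
      (poly_flt (Poly.const _) v5))
  have e5 : Poly (fun a => Fm.eq (sumT ((List.range (r a + 1)).map fun i =>
      Tm.var (nm 5 i 0))) Tm.one) :=
    poly_feq (poly_sumT (Poly.map (F := fun _ i => Tm.var (nm 5 i 0)) hr1.range v5))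
      (Poly.const _)
  have e6 : Poly (fun a => conj ((List.range (r a + 1)).flatMap fun i =>
      (List.range (r a + 1)).map fun i' =>
      if i = i' then tt else Fm.not (conj ((List.range (nn (S a))).map fun j =>
        Fm.eq (Tm.var (nm 4 i j)) (Tm.var (nm 4 i' j)))))) := by
    refine poly_conj (Poly.flatMap (F := fun a i => (List.range (r a + 1)).map fun i' =>
      if i = i' then tt else Fm.not (conj ((List.range (nn (S a))).map fun j =>
        Fm.eq (Tm.var (nm 4 i j)) (Tm.var (nm 4 i' j))))) hr1.range ?_)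
    refine Poly.map (F := fun (q : α × ℕ) i' =>
      if q.2 = i' then tt else Fm.not (conj ((List.range (nn (S q.1))).map fun j =>
        Fm.eq (Tm.var (nm 4 q.2 j)) (Tm.var (nm 4 i' j)))))
      hr2.range ?_
    refine Poly.ite (Poly.decide_eq (Poly.snd (Poly.fst Poly.id)) (Poly.snd Poly.id))
      (Poly.const _) (poly_fnot (poly_conj ?_))
    exact Poly.map (F := fun (q : (α × ℕ) × ℕ) j =>
        Fm.eq (Tm.var (nm 4 q.1.2 j)) (Tm.var (nm 4 q.2 j))) hn2.range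
      (poly_feq (poly_tvar (hw2 4)) (poly_tvar (hw3 4)))
  have t6 : Poly (fun q : α × ℕ => Tm.var (nm 6 q.2 (b0 (nn (S q.1))))) :=
    poly_vnm 6 (Poly.snd Poly.id) hb'.toPoly
  have t7 : Poly (fun q : α × ℕ => Tm.var (nm 7 q.2 (b0 (nn (S q.1))))) :=
    poly_vnm 7 (Poly.snd Poly.id) hb'.toPoly
  have e7 : Poly (fun a => conj ((List.range (r a + 1)).map fun i =>
      Fm.eq (GT (E a) (S a) (nm 4 i) (Tm.var (nm 6 i (b0 (nn (S a)))))) vV)) :=
    poly_conj (Poly.map (F := fun a i =>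
      Fm.eq (GT (E a) (S a) (nm 4 i) (Tm.var (nm 6 i (b0 (nn (S a)))))) vV) hr1.range
      (poly_feq (h4 (α × ℕ) (fun q => E q.1) (fun q => S q.1) (fun q => nm 4 q.2) _ _ hE' hS'
        (hw 4) t6 t6).1 (Poly.const _)))
  have e8 : Poly (fun a => conj ((List.range (r a + 1)).flatMap fun i =>
      (List.range (nn (S a))).map fun j =>
      Fm.eq (GWT (E a) (S a) (nm 4 i) (Tm.var (nm 6 i (b0 (nn (S a)))))
        (Tm.var (nm 7 i (b0 (nn (S a))))) j) Tm.zero)) := by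
    refine poly_conj (Poly.flatMap (F := fun a i => (List.range (nn (S a))).map fun j =>
      Fm.eq (GWT (E a) (S a) (nm 4 i) (Tm.var (nm 6 i (b0 (nn (S a)))))
        (Tm.var (nm 7 i (b0 (nn (S a))))) j) Tm.zero) hr1.range ?_)
    refine Poly.congr (f := fun q : α × ℕ => (List.range (nn (S q.1))).map fun j =>
      Fm.eq (GWT (E q.1) (S q.1) (nm 4 q.2) (Tm.var (nm 6 q.2 (b0 (nn (S q.1)))))
        (Tm.var (nm 7 q.2 (b0 (nn (S q.1))))) (min j (nn (S q.1)))) Tm.zero) ?_ ?_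
    · have hj : UPoly (fun q : (α × ℕ) × ℕ => min q.2 (nn (S q.1.1))) :=
        UPoly.of_le (Poly.min (Poly.snd Poly.id) hn2.toPoly) hn2 fun q => min_le_right _ _
      exact Poly.map (F := fun (q : α × ℕ) j =>
        Fm.eq (GWT (E q.1) (S q.1) (nm 4 q.2) (Tm.var (nm 6 q.2 (b0 (nn (S q.1)))))
        (Tm.var (nm 7 q.2 (b0 (nn (S q.1))))) (min j (nn (S q.1)))) Tm.zero) hn'.range
        (poly_feq ((h4 ((α × ℕ) × ℕ) (fun q => E q.1.1) (fun q => S q.1.1)
          (fun q => nm 4 q.1.2) (fun q => Tm.var (nm 6 q.1.2 (b0 (nn (S q.1.1)))))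
          (fun q => Tm.var (nm 7 q.1.2 (b0 (nn (S q.1.1))))) hE2 hS2 (hw2 4)
          (t6.comp (Poly.fst Poly.id)) (t7.comp (Poly.fst Poly.id))).2.1 _ hj) (Poly.const _))
    · intro q
      refine List.map_congr_left fun j hj => ?_
      rw [List.mem_range] at hj
      simp only [min_eq_left hj.le]
  have e9 : Poly (fun a => conj ((List.range (nn (S a))).map fun l =>
      Fm.eq (sumT ((List.range (r a + 1)).map fun i => Tm.mul (Tm.var (nm 5 i 0))
        (GUT (E a) (S a) (nm 4 i) (Tm.var (nm 6 i (b0 (nn (S a))))) l))) Tm.zero)) := by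
    refine poly_conj (Poly.map (F := fun a l =>
      Fm.eq (sumT ((List.range (r a + 1)).map fun i => Tm.mul (Tm.var (nm 5 i 0))
        (GUT (E a) (S a) (nm 4 i) (Tm.var (nm 6 i (b0 (nn (S a))))) l))) Tm.zero) hn.range ?_)
    refine poly_feq (poly_sumT ?_) (Poly.const _)
    refine Poly.map (F := fun (q : α × ℕ) i => Tm.mul (Tm.var (nm 5 i 0))
        (GUT (E q.1) (S q.1) (nm 4 i) (Tm.var (nm 6 i (b0 (nn (S q.1))))) q.2))
      hr2.range ?_
    have t6' : Poly (fun q : (α × ℕ) × ℕ => Tm.var (nm 6 q.2 (b0 (nn (S q.1.1))))) :=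
      poly_vnm 6 (Poly.snd Poly.id) hb2.toPoly
    exact poly_tmul (poly_vnm 5 (Poly.snd Poly.id) (Poly.const 0))
      ((h4 ((α × ℕ) × ℕ) (fun q => E q.1.1) (fun q => S q.1.1)
          (fun q => nm 4 q.2) (fun q => Tm.var (nm 6 q.2 (b0 (nn (S q.1.1)))))
          (fun q => Tm.var (nm 6 q.2 (b0 (nn (S q.1.1))))) hE2 hS2 (hw3 4)
          t6' t6').2.2 _ (Poly.snd (Poly.fst Poly.id)))
  unfold body
  exact poly_conj (Poly.cons e1 (Poly.cons e2 (Poly.cons e3 (Poly.cons e4 (Poly.cons e5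
    (Poly.cons e6 (Poly.cons e7 (Poly.cons e8 (Poly.cons e9 (Poly.const []))))))))))

end Pool.Agent.NPC.W597IP
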